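import Pool.Agent.H18.Lin4

set_option autoImplicit false

namespace Pool.Agent.Results.MP_236854_co.Explicit
open H18.Lin

theorem result : Function.Surjective cls ∧
    ∃ F : List (ℤ × List Code) → Prop, REPred F ∧
      ∀ x : Cls → ℝ, (∀ M, x M ∈ Set.Icc (0 : ℝ) 1) → (Lineon x ↔ ∀ P, F P → 0 ≤ ev P x) := by
  refine ⟨cls_surj, _, re_family, fun x hx => ⟨?_, fun h => ?_⟩⟩
  · rintro h _ ⟨l, N, n, K, hv, rfl⟩
    exact sound hv h
  · by_contra hn
    obtain ⟨l, N, n, K, hv, h0⟩ := complete (fun M => (hx M).1) hn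
    exact absurd (h _ ⟨l, N, n, K, hv, rfl⟩) (not_le.2 h0)

end Pool.Agent.Results.MP_236854_co.Explicit
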